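import Mathlib

/-!
# The cheating robot cop number is not monotone under connected subgraphs

Let `H` be the complete bipartite graph `K(3,3)` with one edge subdivided (seven vertices, ten edges)
and let `G` be the graph `H` with one more edge.  Two cops win the Cheating Robot game on `G`, but they
do not win it on `H`.
-/

set_option autoImplicit false

namespace Pool.Agent.Results.MP_55b43c_co.NotMonotone

/-- The robot, who goes from `r` to `w` after the cops went from `c` to `d`, is captured: it is on the
vertex of a cop, or it traverses an edge which a cop traversed in this round. -/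
def Captured {V : Type} {k : ℕ} (c d : Fin k → V) (r w : V) : Prop :=
  (∃ i, d i = w) ∨ (r ≠ w ∧ ∃ i, (c i = w ∧ d i = r) ∨ (c i = r ∧ d i = w))

/-- The cops, who are at `c` and have to move, can capture the robot, who is at `r`, in finitely many
rounds: they have a joint move to `d` such that every answer of the robot leads to a capture or to a
position which is won for them. -/
inductive Wins {V : Type} (G : SimpleGraph V) {k : ℕ} : (Fin k → V) → V → Prop
  | step (c : Fin k → V) (r : V) (d : Fin k → V) (hd : ∀ i, d i = c i ∨ G.Adj (c i) (d i))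
      (h : ∀ w, (w = r ∨ G.Adj r w) → ¬ Captured c d r w → Wins G d w) : Wins G c r

/-- `k` cops have a winning strategy in the Cheating Robot game on `G`. -/
def CopsWin {V : Type} (G : SimpleGraph V) (k : ℕ) : Prop :=
  ∃ c : Fin k → V, ∀ r : V, (∀ i, c i ≠ r) → Wins G c r

/-- The cheating robot cop number `c_cr(G)`. -/
noncomputable def ccr {V : Type} (G : SimpleGraph V) : ℕ := sInf {k | CopsWin G k}

/-- The edges of `H`: the graph `K(3,3)` with parts `1, 5, 6` and `2, 3, 4`, in which the edge between
`2` and `5` is subdivided by the vertex `0`. -/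
def edgesH : List (Fin 7 × Fin 7) :=
  [(0, 2), (0, 5), (1, 2), (1, 3), (1, 4), (2, 6), (3, 5), (3, 6), (4, 5), (4, 6)]

/-- The edges of `G`: one more edge between `5` and `6`. -/
def edgesG : List (Fin 7 × Fin 7) := (5, 6) :: edgesH

/-- The adjacency of `H`. -/
def adjH (i j : Fin 7) : Bool := edgesH.contains (i, j) || edgesH.contains (j, i)

/-- The adjacency of `G`. -/
def adjG (i j : Fin 7) : Bool := edgesG.contains (i, j) || edgesG.contains (j, i)

/-- The graph `H`. -/
def H : SimpleGraph (Fin 7) where
  Adj i j := adjH i j = true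
  symm := ⟨by decide⟩
  loopless := ⟨by decide⟩

/-- The graph `G`. -/
def G : SimpleGraph (Fin 7) where
  Adj i j := adjG i j = true
  symm := ⟨by decide⟩
  loopless := ⟨by decide⟩

/-- The number of a position with two cops. -/
def idx (a b r : Fin 7) : ℕ := (a.val * 7 + b.val) * 7 + r.val

/-- Rank table of the winning strategy on `G`. -/
def rk (a b r : Fin 7) : ℕ := (287827521638930754634689106739764885024672532715342970984755422904879632019279767460130160821161544983584110938426379424526011754571324525776304854749557956257700461773569588183009225459491135505210211609433238723139530217610499067160647199261714100286827806813608 >>> (3 * idx a b r)) % 8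

/-- Strategy table on `G`. -/
def mv (a b r : Fin 7) : ℕ := (24303239305545676438773618750569834256322924355803460875287007821438283914716782272515238919723217584808412775181875192456342580926577886263438311795403337136237569305757589116311367527924168113715784860398636493308084964098967763404201792244040600461877499734805117728047287848851888647844641018821122096453434938855668458896180300763336494486303133683292139863395335970137913777662434855120610710150151243970903820620322604692228394178282265490548360216500494635548586067777103547083890157236 / 49 ^ idx a b r) % 49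

/-- The move of the first cop. -/
def mv0 (a b r : Fin 7) : Fin 7 := ⟨(mv a b r / 7) % 7, Nat.mod_lt _ (by norm_num)⟩

/-- The move of the second cop. -/
def mv1 (a b r : Fin 7) : Fin 7 := ⟨mv a b r % 7, Nat.mod_lt _ (by norm_num)⟩

/-- Capture, for two cops. -/
def capt (a b d e r w : Fin 7) : Bool :=
  (d == w || e == w) || ((r != w) && ((a == w && d == r) || (b == w && e == r) ||
    (a == r && d == w) || (b == r && e == w)))

/-- All vertices. -/
def vs : List (Fin 7) := [0, 1, 2, 3, 4, 5, 6]

lemma mem_vs (x : Fin 7) : x ∈ vs := by revert x; decide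

/-- The check of the strategy on `G`. -/
def checkG : Bool :=
  vs.all fun a => vs.all fun b => vs.all fun r =>
    rk a b r == 0 ||
      ((mv0 a b r == a || adjG a (mv0 a b r)) && (mv1 a b r == b || adjG b (mv1 a b r)) &&
        vs.all fun w => !(w == r || adjG r w) || capt a b (mv0 a b r) (mv1 a b r) r w ||
          (0 < rk (mv0 a b r) (mv1 a b r) w && rk (mv0 a b r) (mv1 a b r) w < rk a b r))

lemma checkG_eq : checkG = true := by decide +kernel

/-- The table of safe positions of the robot on `H`. -/
def safe (a b r : Fin 7) : Bool := Nat.testBit 8852200340307472621808882013911974214765092752547597233754627646910095610715136061422490135409849187966 (idx a b r)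

/-- The check of the safe positions on `H`. -/
def checkH : Bool :=
  vs.all fun a => vs.all fun b => vs.all fun r => !safe a b r ||
    vs.all fun d => !(d == a || adjH a d) || vs.all fun e => !(e == b || adjH b e) ||
      vs.any fun w => (w == r || adjH r w) && !capt a b d e r w && safe d e w

lemma checkH_eq : checkH = true := by decide +kernel

lemma capt_iff (c d : Fin 2 → Fin 7) (r w : Fin 7) :
    capt (c 0) (c 1) (d 0) (d 1) r w = true ↔ Captured c d r w := by
  simp only [capt, Captured, Bool.or_eq_true, Bool.and_eq_true, beq_iff_eq, bne_iff_ne,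
    Fin.exists_fin_two]
  tauto

lemma wins_of_rk : ∀ (n : ℕ) (c : Fin 2 → Fin 7) (r : Fin 7), rk (c 0) (c 1) r = n → 0 < n →
    Wins G c r := by
  intro n
  induction n using Nat.strong_induction_on with
  | _ n ih =>
    intro c r hn h0
    have h := checkG_eq
    simp only [checkG, List.all_eq_true, Bool.or_eq_true, Bool.and_eq_true, beq_iff_eq,
      Bool.not_eq_true', decide_eq_true_eq] at h
    have h1 := h (c 0) (mem_vs _) (c 1) (mem_vs _) r (mem_vs _)
    rcases h1 with h1 | ⟨⟨hm0, hm1⟩, hw⟩
    · omega
    refine Wins.step c r ![mv0 (c 0) (c 1) r, mv1 (c 0) (c 1) r] ?_ ?_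
    · intro i
      fin_cases i
      · exact hm0
      · exact hm1
    · intro w hrw hc
      rcases hw w (mem_vs w) with (h2 | h2) | ⟨h2, h3⟩
      · exfalso
        rcases hrw with rfl | hrw
        · simp at h2
        · have : adjG r w = true := hrw
          simp [this] at h2
      · exact absurd ((capt_iff c ![mv0 (c 0) (c 1) r, mv1 (c 0) (c 1) r] r w).1 h2) hc
      · exact ih _ (by rw [← hn]; exact h3) ![mv0 (c 0) (c 1) r, mv1 (c 0) (c 1) r] w rfl h2

lemma not_wins {c : Fin 2 → Fin 7} {r : Fin 7} (h : Wins H c r) : safe (c 0) (c 1) r = false := by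
  induction h with
  | step c r d hd _ ih =>
    by_contra hs
    rw [Bool.not_eq_false] at hs
    have h := checkH_eq
    simp only [checkH, List.all_eq_true, List.any_eq_true, Bool.or_eq_true, Bool.and_eq_true,
      beq_iff_eq, Bool.not_eq_true'] at h
    rcases h (c 0) (mem_vs _) (c 1) (mem_vs _) r (mem_vs _) with h | h
    · rw [h] at hs
      exact Bool.noConfusion hs
    rcases h (d 0) (mem_vs _) with h | h
    · rcases hd 0 with h0 | h0
      · simp [h0] at h
      · have : adjH (c 0) (d 0) = true := h0
        simp [this] at h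
    rcases h (d 1) (mem_vs _) with h | ⟨w, -, ⟨hw, hcap⟩, hsafe⟩
    · rcases hd 1 with h0 | h0
      · simp [h0] at h
      · have : adjH (c 1) (d 1) = true := h0
        simp [this] at h
    · have h1 := ih w hw (by
        rw [← capt_iff, hcap]
        exact Bool.noConfusion)
      rw [hsafe] at h1
      exact Bool.noConfusion h1

lemma not_wins_zero {V : Type} {G : SimpleGraph V} {c : Fin 0 → V} {r : V} (h : Wins G c r) :
    False := by
  induction h with
  | step c r d hd _ ih =>
    refine ih r (Or.inl rfl) ?_
    rintro (⟨i, -⟩ | ⟨h, -⟩)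
    · exact i.elim0
    · exact h rfl

lemma wins_comp {V : Type} {G : SimpleGraph V} {k m : ℕ} (f : Fin m → Fin k) {c : Fin k → V}
    {r : V} (h : Wins G c r) (hf : Function.Surjective f) : Wins G (c ∘ f) r := by
  induction h with
  | step c r d hd _ ih =>
    refine Wins.step _ r (d ∘ f) (fun i => hd (f i)) fun w hw hc => ih w hw fun h => hc ?_
    rcases h with ⟨i, hi⟩ | ⟨h0, i, hi⟩
    · obtain ⟨j, rfl⟩ := hf i
      exact Or.inl ⟨j, hi⟩
    · obtain ⟨j, rfl⟩ := hf i
      exact Or.inr ⟨h0, j, hi⟩

/-- The start check: on `H`, the robot has a safe start for every start of two cops. -/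
lemma start_H : ∀ a b : Fin 7, ∃ r : Fin 7, a ≠ r ∧ b ≠ r ∧ safe a b r = true := by
  decide +kernel

lemma not_copsWin_two : ¬ CopsWin H 2 := by
  rintro ⟨c, hc⟩
  obtain ⟨r, h0, h1, h2⟩ := start_H (c 0) (c 1)
  have := not_wins (hc r (by
    intro i
    fin_cases i
    · exact h0
    · exact h1))
  rw [h2] at this
  exact Bool.noConfusion this

lemma not_copsWin_one : ¬ CopsWin H 1 := by
  rintro ⟨c, hc⟩
  apply not_copsWin_two
  refine ⟨c ∘ fun _ => 0, fun r hr => wins_comp _ (hc r fun i => ?_) ?_⟩
  · rw [Subsingleton.elim i 0]
    exact hr 0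
  · intro i
    exact ⟨0, Subsingleton.elim _ _⟩

lemma not_copsWin_zero {V : Type} [Nonempty V] {G : SimpleGraph V} : ¬ CopsWin G 0 := by
  rintro ⟨c, hc⟩
  exact not_wins_zero (hc (Classical.arbitrary V) fun i => i.elim0)

lemma copsWin_G : CopsWin G 2 := by
  refine ⟨![0, 0], fun r hr => wins_of_rk _ _ r rfl ?_⟩
  have h0 : r ≠ 0 := fun h => hr 0 (by simp [h])
  revert h0
  revert r
  decide +kernel

/-- The check for one cop on `G`: the robot can always move to a safe vertex. -/
lemma one_G : ∀ c d r : Fin 7, c ≠ r → (d = c ∨ adjG c d = true) →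
    ∃ w : Fin 7, (w = r ∨ adjG r w = true) ∧ d ≠ w ∧
      ¬ (r ≠ w ∧ ((c = w ∧ d = r) ∨ (c = r ∧ d = w))) := by
  decide +kernel

lemma not_wins_one {c : Fin 1 → Fin 7} {r : Fin 7} (h : Wins G c r) : c 0 = r := by
  induction h with
  | step c r d hd _ ih =>
    by_contra hne
    obtain ⟨w, hw, hdw, hcap⟩ := one_G (c 0) (d 0) r hne (hd 0)
    refine hdw (ih w hw ?_)
    rintro (⟨i, hi⟩ | ⟨h0, i, hi⟩)
    · rw [Subsingleton.elim i 0] at hi
      exact hdw hi
    · rw [Subsingleton.elim i 0] at hi
      exact hcap ⟨h0, hi⟩

lemma not_copsWin_G_one : ¬ CopsWin G 1 := by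
  rintro ⟨c, hc⟩
  obtain ⟨r, hr⟩ : ∃ r : Fin 7, c 0 ≠ r := by
    generalize c 0 = x
    revert x
    decide
  exact hr (not_wins_one (hc r fun i => by rw [Subsingleton.elim i 0]; exact hr))

lemma copsWin_all (G : SimpleGraph (Fin 7)) : CopsWin G 7 :=
  ⟨id, fun r hr => absurd rfl (hr r)⟩

lemma ccr_G : ccr G = 2 := by
  have h : sInf {k | CopsWin G k} ∈ {k | CopsWin G k} := Nat.sInf_mem ⟨7, copsWin_all G⟩
  have h1 : ccr G ≤ 2 := Nat.sInf_le copsWin_G
  have h2 : CopsWin G (ccr G) := h
  interval_cases hk : ccr G
  · exact absurd h2 not_copsWin_zero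
  · exact absurd h2 not_copsWin_G_one
  · rfl

lemma ccr_H : 3 ≤ ccr H := by
  have h : sInf {k | CopsWin H k} ∈ {k | CopsWin H k} := Nat.sInf_mem ⟨7, copsWin_all H⟩
  have h2 : CopsWin H (ccr H) := h
  by_contra hlt
  rw [not_le] at hlt
  interval_cases hk : ccr H
  · exact absurd h2 not_copsWin_zero
  · exact absurd h2 not_copsWin_one
  · exact absurd h2 not_copsWin_two

lemma H_connected : H.Connected := by
  have h0 : ∀ v : Fin 7, H.Reachable 0 v := by
    have a02 : H.Reachable 0 2 := SimpleGraph.Adj.reachable (show adjH 0 2 = true by decide)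
    have a05 : H.Reachable 0 5 := SimpleGraph.Adj.reachable (show adjH 0 5 = true by decide)
    have a21 : H.Reachable 2 1 := SimpleGraph.Adj.reachable (show adjH 2 1 = true by decide)
    have a26 : H.Reachable 2 6 := SimpleGraph.Adj.reachable (show adjH 2 6 = true by decide)
    have a53 : H.Reachable 5 3 := SimpleGraph.Adj.reachable (show adjH 5 3 = true by decide)
    have a54 : H.Reachable 5 4 := SimpleGraph.Adj.reachable (show adjH 5 4 = true by decide)
    intro v
    fin_cases v
    · exact SimpleGraph.Reachable.refl _
    · exact a02.trans a21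
    · exact a02
    · exact a05.trans a53
    · exact a05.trans a54
    · exact a05
    · exact a02.trans a26
  exact SimpleGraph.connected_iff_exists_forall_reachable _ |>.2 ⟨0, h0⟩

lemma H_le_G : H ≤ G := by
  have h : ∀ i j : Fin 7, adjH i j = true → adjG i j = true := by decide
  intro i j hij
  exact h i j hij

/-- There are a connected graph `G` and a connected (spanning) subgraph `H` of `G` such that
`c_cr(H) > c_cr(G)`. -/
theorem result : ∃ G H : SimpleGraph (Fin 7), G.Connected ∧ H.Connected ∧ H ≤ G ∧
    ccr G = 2 ∧ 3 ≤ ccr H :=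
  ⟨G, H, H_connected.mono H_le_G, H_connected, H_le_G, ccr_G, ccr_H⟩

end Pool.Agent.Results.MP_55b43c_co.NotMonotone
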